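import Pool.Agent.H44.DU.Targets

/-!
# Module K1: the exit words are bounded
-/

set_option autoImplicit false

namespace Pool.Agent.H69.DU

open Pool.Agent.H44.DU

lemma dev_nil {n : ℕ} (S : Surf n) (c : Side n) : S.dev [] c = S.P c := by
  simp [Surf.dev, Surf.A, Surf.B]

lemma last_in {n : ℕ} {u u' v : List (Side n)} {r r' : Side n} (hv : v ≠ [])
    (h : u' ++ [r'] = u ++ [r] ++ v) : r ∈ u' := by
  obtain ⟨v0, z, rfl⟩ := List.eq_nil_or_concat v |>.resolve_left hv
  rw [List.concat_eq_append, ← List.append_assoc] at h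
  have := (List.append_inj' h rfl).1
  rw [this]
  simp

theorem pf_K1 (h1 : T_TR) (h2 : T_LH) (h3 : T_DV) (h4 : T_FD) : T_K1 := by
  intro n S t I hI
  have hD : ∀ s : Side n, |xi t (S.P s)| ≤ ∑ s : Side n, |xi t (S.P s)| := fun s =>
    Finset.single_le_sum (f := fun s : Side n => |xi t (S.P s)|) (fun i _ => abs_nonneg _)
      (Finset.mem_univ s)
  -- the bounds of the interval of a word
  have hlo : ∀ (e : Side n) (w : List (Side n)), xi t (S.Q e) ≤ S.lo t (e :: w) := by
    intro e w
    have := ((h3 n S t (e :: w) (by simp)).2.2 [] e w rfl).1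
    rwa [dev_nil, S.P_nx] at this
  have hhi : ∀ (e : Side n) (w : List (Side n)), S.hi t (e :: w) ≤ xi t (S.P e) := by
    intro e w
    have := ((h3 n S t (e :: w) (by simp)).2.2 [] e w rfl).2
    rwa [dev_nil] at this
  have key := h1 (Side n) inferInstance {w | Surf.EWord I w ∧ ∃ x, S.Run t w x} (S.lo t) (S.hi t)
    (∑ s : Side n, |xi t (S.P s)|) (fun e => xi t (S.O e)) ?_ ?_ ?_ ?_
  · obtain ⟨N, hN⟩ := key
    exact ⟨N, fun w x hw hx => hN w ⟨hw, x, hx⟩⟩
  · -- suffixes
    rintro e w ⟨⟨u, r, hu, hI1, hI2⟩, x, hx⟩ hw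
    refine ⟨?_, S.mv t e x, hx.2.2⟩
    cases u with
    | nil =>
      simp only [List.nil_append, List.cons.injEq] at hu
      exact absurd hu.2 hw
    | cons e' u' =>
      rw [List.cons_append, List.cons.injEq] at hu
      exact ⟨u', r, hu.2, fun s hs => hI1 s (List.mem_cons_of_mem _ hs), hI2⟩
  · -- bounds
    rintro w ⟨⟨u, r, hu, hI1, hI2⟩, x, hx⟩
    have hw : w ≠ [] := by rw [hu]; simp
    obtain ⟨-, l1, l2⟩ := (h2 n S t w hw x).1 hx
    cases w with
    | nil => exact absurd rfl hw
    | cons e w =>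
      refine ⟨hw, l1.trans l2, ?_, ?_⟩
      · have a1 := hlo e w
        have a2 := hD (nx e)
        rw [S.P_nx] at a2
        have a3 := neg_abs_le (xi t (S.Q e))
        linarith
      · have a1 := hhi e w
        have a2 := hD e
        have a3 := le_abs_self (xi t (S.P e))
        linarith
  · -- disjointness
    rintro w ⟨⟨u, r, hu, hI1, hI2⟩, x, hx⟩ w' ⟨⟨u', r', hu', hI1', hI2'⟩, x', hx'⟩ hne hhd
    have hw : w ≠ [] := by rw [hu]; simp
    have hw' : w' ≠ [] := by rw [hu']; simp
    by_contra hcon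
    push Not at hcon
    obtain ⟨c1, c2⟩ := hcon
    obtain ⟨ch, l1, l2⟩ := (h2 n S t w hw x).1 hx
    obtain ⟨ch', l1', l2'⟩ := (h2 n S t w' hw' x').1 hx'
    obtain ⟨z, z1, z2⟩ := exists_between (a₁ := max (S.lo t w) (S.lo t w'))
      (a₂ := min (S.hi t w) (S.hi t w'))
      (lt_min (max_lt (l1.trans l2) c1) (max_lt c2 (l1'.trans l2')))
    have r1 : S.Run t w z := (h2 n S t w hw z).2
      ⟨ch, (le_max_left _ _).trans_lt z1, z2.trans_le (min_le_left _ _)⟩
    have r2 : S.Run t w' z := (h2 n S t w' hw' z).2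
      ⟨ch', (le_max_right _ _).trans_lt z1, z2.trans_le (min_le_right _ _)⟩
    rcases h4 n S t z w w' r1 r2 (fun a ha b hb => by
      rw [hhd] at ha
      rw [Option.mem_unique ha hb]) with hp | hp
    · obtain ⟨v, hv⟩ := hp
      rcases eq_or_ne v [] with h0 | h0
      · rw [h0, List.append_nil] at hv
        exact hne hv
      · exact hI2 (hI1' r (last_in h0 (by rw [← hu', ← hv, hu])))
    · obtain ⟨v, hv⟩ := hp
      rcases eq_or_ne v [] with h0 | h0
      · rw [h0, List.append_nil] at hv
        exact hne hv.symm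
      · exact hI2' (hI1 r' (last_in h0 (by rw [← hu, ← hv, hu'])))
  · -- translation
    rintro e' e w ⟨⟨u, r, hu, hI1, hI2⟩, x, hx⟩ hno
    have he' : I e' := by
      cases u with
      | nil =>
        simp at hu
      | cons e0 u' =>
        rw [List.cons_append, List.cons.injEq] at hu
        rw [hu.1]
        exact hI1 e0 (by simp)
    have ha := hI e' he'
    rw [S.run_cons_cons] at hx
    obtain ⟨x1, x2, x3⟩ := hx
    have y1 : S.InI t (S.gl e') (S.mv t e' x) := (S.inI_gl_iff t e' x).2 x1
    have y2 : S.InJ t e (S.mv t e' x) := x3.1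
    obtain ⟨-, y3, y4⟩ := (h2 n S t (e :: w) (by simp) _).1 x3
    have hP : xi t (S.P (S.gl e')) = xi t (S.Q e') + xi t (S.b e') := by
      rw [S.xi_P_gl, Surf.mv, ha, one_mul]
    have hQ : xi t (S.Q (S.gl e')) = xi t (S.P e') + xi t (S.b e') := by
      rw [S.xi_Q_gl, Surf.mv, ha, one_mul]
    have b1 : xi t (S.P (S.gl e')) ≤ S.lo t (e :: w) ∧
        S.hi t (e :: w) ≤ xi t (S.Q (S.gl e')) := by
      rcases side_cases x2.symm with h | h | h
      · exfalso
        rw [h] at y2
        exact S.not_inI_of_inJ y2 y1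
      · have o1 : xi t (S.O e) = xi t (S.P (S.gl e')) := by rw [h, S.O_nx]
        have o2 := hhi e w
        constructor
        · by_contra hc
          push Not at hc
          apply hno
          rw [o1]
          exact ⟨hc, y1.1.trans y4⟩
        · rwa [h, S.P_nx, ← h] at o2
      · have o1 : xi t (S.O e) = xi t (S.Q (S.gl e')) := by rw [h, S.O_nx_nx]
        have o2 := hlo e w
        constructor
        · rwa [h, S.Q_nx_nx, ← h] at o2
        · by_contra hc
          push Not at hc
          apply hno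
          rw [o1]
          exact ⟨y3.trans y1.2, hc⟩
    have e1 : S.lo t (e' :: e :: w) = S.lo t (e :: w) - xi t (S.b e') := by
      rw [Surf.lo, ha, div_one]
      apply max_eq_right
      linarith [b1.1]
    have e2 : S.hi t (e' :: e :: w) = S.hi t (e :: w) - xi t (S.b e') := by
      rw [Surf.hi, ha, div_one]
      apply min_eq_right
      linarith [b1.2]
    rw [e1, e2]
    ring

end Pool.Agent.H69.DU
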