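import Pool.Agent.H44.DU.Targets

/-!
# Module K2: the words of letters of `I` after an entry from outside are bounded
-/

set_option autoImplicit false

namespace Pool.Agent.H69.DU

open Pool.Agent.H44.DU

theorem pf_K2 (h1 : T_K1) (h2 : T_RV) : T_K2 := by
  intro n S t I hI hgl
  obtain ⟨N, hN⟩ := h1 n S.rev t I hI
  refine ⟨N, fun s w x hs hx hw hh hr => ?_⟩
  have h3 := h2 n S t x s w hx hr hh
  have h4 : Surf.EWord I ((w.map S.gl).reverse ++ [s]) := by
    refine ⟨(w.map S.gl).reverse, s, rfl, ?_, hs⟩
    intro r hr'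
    rw [List.mem_reverse, List.mem_map] at hr'
    obtain ⟨r0, hr0, rfl⟩ := hr'
    exact (hgl r0).2 (hw r0 hr0)
  have h5 := hN _ _ h4 h3
  simp only [List.length_append, List.length_reverse, List.length_map,
    List.length_singleton] at h5
  omega

end Pool.Agent.H69.DU
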