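import Pool.Agent.H44.DU.Targets

/-!
# Module X5: almost every direction has a level without bad words
-/

set_option autoImplicit false

namespace Pool.Agent.H69.DU

open Pool.Agent.H44.DU MeasureTheory Filter

/-- The words of length `m` realised in a direction of `V`. -/
def Wd {n : ℕ} (S : Surf n) (V : Set ℝ) (m : ℕ) : Set (List (Side n)) :=
  {w | w.length = m ∧ ∃ t x, t ∈ V ∧ S.Run t w x}

lemma wd_finite {n : ℕ} (S : Surf n) (V : Set ℝ) (m : ℕ) : (Wd S V m).Finite :=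
  (List.finite_length_eq (Side n) m).subset fun _ hw => hw.1

/-- The directions in which the word `W` is bad. -/
def T4 {n : ℕ} (S : Surf n) (K c : ℝ) (W : List (Side n)) : Set ℝ :=
  {t | ∃ w l, W = w ++ [l] ∧ |t| ≤ K ∧ (∃ y, S.Run t (w ++ [l]) y) ∧
      (∀ y, S.Run t (w ++ [l]) y →
        c ≤ (S.pt t (S.gl l) (S.g t (w ++ [l]) y)).im - (S.B (w ++ [l])).im) ∧
      ∃ x, S.lo t (w ++ [l]) ≤ x ∧ x ≤ S.hi t (w ++ [l]) ∧
        S.g t (w ++ [l]) x = xi t (S.O (S.gl l))}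

lemma exists_level (n : ℕ) (ρ : ℝ) (h0 : 0 < ρ) (h1 : ρ < 1) :
    ∃ m : ℕ, 0 < m ∧ 6 * (n : ℝ) * m * ρ ^ m < 1 := by
  have h := (tendsto_self_mul_const_pow_of_lt_one h0.le h1).const_mul (6 * (n : ℝ))
  rw [mul_zero] at h
  have h2 := (h.eventually (gt_mem_nhds one_pos)).and (eventually_gt_atTop 0)
  obtain ⟨m, hm1, hm2⟩ := h2.exists
  exact ⟨m, hm2, by rw [mul_assoc]; exact hm1⟩

theorem pf_X5 (h1 : T_X2) (h2 : T_X3) (h3 : T_X4) : T_X5 := by
  intro n S U t₀ δ C ρ c N hn hδ hC hρ0 hρ1 hc hV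
  obtain ⟨m, hm, hq⟩ := exists_level n ρ hρ0 hρ1
  obtain ⟨δ₁, hδ₁, hcard⟩ := h1 n S t₀ m hm
  obtain ⟨D, hD, hX4⟩ := h3 n S (|t₀| + δ)
  set V : Set ℝ := {t | |t - t₀| < min δ δ₁} with hVdef
  have hVδ : ∀ t ∈ V, |t - t₀| < δ := fun t ht => lt_of_lt_of_le ht (min_le_left _ _)
  have hc1 : (Wd S V m).ncard ≤ 6 * n * m := by
    refine le_trans (Set.ncard_le_ncard ?_ ?_) hcard
    · rintro w ⟨a1, t, x, a2, a3⟩
      exact ⟨a1, t, x, lt_of_lt_of_le a2 (min_le_right _ _), a3⟩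
    · exact (List.finite_length_eq (Side n) m).subset fun _ hw => hw.1
  have hck : ∀ k : ℕ, (Wd S V (k * m)).ncard ≤ (6 * n * m) ^ k := fun k =>
    (h2 n S V m k).trans (Nat.pow_le_pow_left hc1 k)
  -- the measure of the bad set
  have hbad : ∀ k : ℕ, 0 < k → N ≤ k * m →
      volume {t : ℝ | t ∈ V ∧ ¬ S.NotBad U t (k * m)} ≤
        ENNReal.ofReal (D * C / c * (6 * (n : ℝ) * m * ρ ^ m) ^ k) := by
    intro k hk hkN
    have hfin : ({W | W ∈ Wd S V (k * m) ∧ ∀ r ∈ W, U r.1} : Set (List (Side n))).Finite :=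
      (wd_finite S V (k * m)).subset fun _ hw => hw.1
    have hsub : {t : ℝ | t ∈ V ∧ ¬ S.NotBad U t (k * m)} ⊆
        ⋃ W ∈ hfin.toFinset, T4 S (|t₀| + δ) c W := by
      rintro t ⟨htV, hnb⟩
      unfold Surf.NotBad at hnb
      push Not at hnb
      obtain ⟨w, l, x, e1, e2, e3, e4, e5, e6⟩ := hnb
      rw [Set.mem_iUnion₂]
      refine ⟨w ++ [l], ?_, ?_⟩
      · rw [Set.Finite.mem_toFinset]
        obtain ⟨y, hy⟩ := e3
        exact ⟨⟨e1, t, y, htV, hy⟩, e2⟩
      · refine ⟨w, l, rfl, ?_, e3, ?_, x, e4, e5, e6⟩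
        · have b1 : |t| ≤ |t₀| + |t - t₀| := by
            have := abs_add_le t₀ (t - t₀)
            rwa [add_sub_cancel] at this
          have b2 := hVδ t htV
          linarith
        · intro y hy
          exact (hV t (hVδ t htV)).2 w l y e2 (by rw [e1]; exact hkN) hy
    have hone : ∀ W ∈ hfin.toFinset,
        volume (T4 S (|t₀| + δ) c W) ≤ ENNReal.ofReal (D * (C * ρ ^ (k * m)) / c) := by
      intro W hW
      rw [Set.Finite.mem_toFinset] at hW
      obtain ⟨⟨e1, t, x, e2, e3⟩, e4⟩ := hW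
      have hA : S.A W ≤ C * ρ ^ (k * m) := by
        have := (hV t (hVδ t e2)).1 W x e4 e3
        rwa [e1] at this
      have hne : W ≠ [] := by
        intro h
        rw [h] at e1
        simp only [List.length_nil] at e1
        have := Nat.mul_pos hk hm
        omega
      obtain ⟨w0, l0, hw0⟩ := List.eq_nil_or_concat W |>.resolve_left hne
      rw [List.concat_eq_append] at hw0
      rw [hw0] at hA
      refine le_trans (measure_mono ?_) (hX4 w0 l0 (C * ρ ^ (k * m)) c hc hA)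
      rintro s ⟨w, l, f1, f2, f3, f4, f5⟩
      rw [hw0] at f1
      obtain ⟨g1, g2⟩ := List.append_inj' f1 rfl
      simp only [List.cons.injEq, and_true] at g2
      subst g1
      subst g2
      exact ⟨f2, f3, f4, f5⟩
    have hcardk : (hfin.toFinset.card : ℝ) ≤ (6 * (n : ℝ) * m) ^ k := by
      have a1 : hfin.toFinset.card ≤ (6 * n * m) ^ k := by
        rw [← Set.ncard_eq_toFinset_card _ hfin]
        exact (Set.ncard_le_ncard (fun _ hw => hw.1) (wd_finite S V (k * m))).trans (hck k)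
      exact_mod_cast a1
    calc volume {t : ℝ | t ∈ V ∧ ¬ S.NotBad U t (k * m)}
        ≤ volume (⋃ W ∈ hfin.toFinset, T4 S (|t₀| + δ) c W) := measure_mono hsub
      _ ≤ ∑ W ∈ hfin.toFinset, volume (T4 S (|t₀| + δ) c W) :=
          measure_biUnion_finset_le _ _
      _ ≤ ∑ _W ∈ hfin.toFinset, ENNReal.ofReal (D * (C * ρ ^ (k * m)) / c) :=
          Finset.sum_le_sum hone
      _ = ENNReal.ofReal (hfin.toFinset.card * (D * (C * ρ ^ (k * m)) / c)) := by
          rw [Finset.sum_const, nsmul_eq_mul, ENNReal.ofReal_mul (Nat.cast_nonneg _),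
            ENNReal.ofReal_natCast]
      _ ≤ ENNReal.ofReal (D * C / c * (6 * (n : ℝ) * m * ρ ^ m) ^ k) := by
          apply ENNReal.ofReal_le_ofReal
          have hp : 0 ≤ D * (C * ρ ^ (k * m)) / c := by positivity
          calc (hfin.toFinset.card : ℝ) * (D * (C * ρ ^ (k * m)) / c)
              ≤ (6 * (n : ℝ) * m) ^ k * (D * (C * ρ ^ (k * m)) / c) :=
                mul_le_mul_of_nonneg_right hcardk hp
            _ = D * C / c * (6 * (n : ℝ) * m * ρ ^ m) ^ k := by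
                rw [mul_comm k m, pow_mul, mul_pow (6 * (n : ℝ) * m) (ρ ^ m) k]
                ring
  refine ⟨min δ δ₁, lt_min hδ hδ₁, ?_⟩
  have hq0 : 0 ≤ 6 * (n : ℝ) * m * ρ ^ m := by positivity
  have hlim : Tendsto (fun k : ℕ => ENNReal.ofReal (D * C / c * (6 * (n : ℝ) * m * ρ ^ m) ^ k))
      atTop (nhds 0) := by
    have := (tendsto_pow_atTop_nhds_zero_of_lt_one hq0 hq).const_mul (D * C / c)
    rw [mul_zero] at this
    have h4 := ENNReal.tendsto_ofReal this
    rwa [ENNReal.ofReal_zero] at h4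
  have hnull : volume {t : ℝ | t ∈ V ∧ ∀ m', 0 < m' → ¬ S.NotBad U t m'} = 0 := by
    apply le_antisymm _ bot_le
    refine ge_of_tendsto hlim ?_
    filter_upwards [eventually_ge_atTop (N + 1)] with k hk
    have k1 : 0 < k := by omega
    have k2 : N ≤ k * m := by nlinarith
    refine le_trans (measure_mono ?_) (hbad k k1 k2)
    rintro t ⟨ht1, ht2⟩
    exact ⟨ht1, ht2 _ (Nat.mul_pos k1 hm)⟩
  rw [ae_iff]
  refine measure_mono_null ?_ hnull
  intro t ht
  simp only [Set.mem_ofPred_eq, Classical.not_imp, not_exists, not_and] at ht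
  exact ⟨ht.1, fun m' hm' => ht.2 m' hm'⟩

end Pool.Agent.H69.DU
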